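import Pool.Agent.BLP.StmtsA

/-!
# Row A_ONE of the squad BLP: one level, one time
-/

namespace Pool.Agent.BLP.H24

open MeasureTheory ProbabilityTheory Filter Topology Finset
open scoped ENNReal

/-- **ONE**: one level, and one time. -/
theorem one (hen : EnaStmt) (hpa : PabStmt) : OneStmt := by
  intro b
  constructor
  · intro m s t hst
    have hset : {E | ∃ τ : ℤ → ℝ, τ (m - 1) = s ∧ τ m = t ∧
        (∀ r, m ≤ r → r ≤ m → τ (r - 1) ≤ τ r) ∧ E = En b τ m m} = {b m t - b m s} := by
      ext E
      simp only [Set.mem_setOf_eq, Set.mem_singleton_iff]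
      constructor
      · rintro ⟨τ, h1, h2, _, rfl⟩
        rw [(hen b τ m m).2.1, h1, h2]
      · rintro rfl
        refine ⟨fun r => if r < m then s else t, ?_, ?_, ?_, ?_⟩
        · simp
        · simp
        · intro r hr hr'
          have hr'' : r = m := le_antisymm hr' hr
          subst hr''
          simp [hst]
        · rw [(hen b _ m m).2.1]
          simp
    rw [L, hset, csSup_singleton]
  · intro m n s hmn
    have hset : {E | ∃ τ : ℤ → ℝ, τ (m - 1) = s ∧ τ n = s ∧
        (∀ r, m ≤ r → r ≤ n → τ (r - 1) ≤ τ r) ∧ E = En b τ m n} = {0} := by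
      ext E
      simp only [Set.mem_setOf_eq, Set.mem_singleton_iff]
      constructor
      · rintro ⟨τ, h1, h2, h3, rfl⟩
        have hP := (hpa m n s s τ ⟨h1, h2, h3⟩ hmn).2.1
        rw [En]
        refine Finset.sum_eq_zero ?_
        intro r hr
        rw [Finset.mem_Icc] at hr
        have e1 : τ r = s := le_antisymm (hP r (by omega) hr.2).2 (hP r (by omega) hr.2).1
        have e2 : τ (r - 1) = s :=
          le_antisymm (hP (r - 1) (by omega) (by omega)).2 (hP (r - 1) (by omega) (by omega)).1
        rw [e1, e2, sub_self]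
      · rintro rfl
        refine ⟨fun _ => s, rfl, rfl, fun _ _ _ => le_rfl, ?_⟩
        rw [En]
        symm
        exact Finset.sum_eq_zero fun r _ => sub_self _
    rw [L, hset, csSup_singleton]

end Pool.Agent.BLP.H24
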