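import Pool.Agent.BLP.StmtsK

/-!
# Row K_FIN of the squad BLP: transfer from the canonical space to the original space
-/

namespace Pool.Agent.BLP.H24

open MeasureTheory ProbabilityTheory Filter Topology Finset
open scoped ENNReal

/-- **FIN**: assembly. -/
theorem fin : FinStmt := by
  intro h1 hmsp hlim hgoo Ω _ P B hB
  obtain ⟨hf, hSp, hae⟩ := h1 Ω P B hB
  obtain ⟨β, hβ, haeX⟩ := hmsp XX (P.map fun ω (i : ℤ × ℚ) => B ω i.1 i.2) BX hSp
  refine ⟨fun q x y ω => β q x y (fun i : ℤ × ℚ => B ω i.1 i.2), ?_, ?_⟩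
  · intro q hq x y ε hε
    have h2 := hβ q hq x y ε hε
    refine tendsto_of_tendsto_of_tendsto_of_le_of_le tendsto_const_nhds h2
      (fun _ => zero_le) ?_
    intro n
    refine le_trans ?_ (Measure.le_map_apply hf _)
    refine measure_mono_ae ?_
    filter_upwards [hae] with ω hω
    intro h3
    change ε ≤ edist (L (BX fun i : ℤ × ℚ => B ω i.1 i.2) x.1 x.2 n (n * q) -
      L (BX fun i : ℤ × ℚ => B ω i.1 i.2) y.1 y.2 n (n * q)) _
    rw [hω.2]
    exact h3
  · have h2 := ae_of_ae_map hf haeX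
    filter_upwards [h2, hae] with ω h3 h4
    obtain ⟨hcon, hmon, hnov⟩ := h3
    rw [h4.2] at hmon hnov
    exact ⟨hcon, hlim _ _ hmon, hgoo _ _ h4.1 hmon hnov⟩

end Pool.Agent.BLP.H24
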