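import Pool.Agent.BLP.StmtsE

/-!
# Row E_ELQ of the squad BLP: localisation, good points
-/

set_option autoImplicit false

namespace Pool.Agent.BLP.H24

open Pool.Agent.BLP
open MeasureTheory ProbabilityTheory Filter Topology

/-- **E_ELQ**. -/
theorem e_elq (hspl : SplStmt) (hspk : SpkStmt) (hlev : LevStmt) (hell : EllStmt)
    (helr : ElrStmt) : ElqStmt := by
  intro X _ μ B c hSp hLLN q₁ q q₂ hq₁ hq₁q hqq₂ k s δ hδ
  have hq : 0 < q := hq₁.trans hq₁q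
  have hδ2 : 0 < δ / 2 := half_pos hδ
  obtain ⟨M₁, hM₁⟩ := hell X μ B c hSp hLLN q₁ q hq₁ hq₁q k s (δ / 2) hδ2
  obtain ⟨M₂, hM₂⟩ := helr X μ B c hSp hLLN q q₂ hq hqq₂ k s (δ / 2) hδ2
  refine ⟨max (max M₁ M₂) k.toNat, fun n hn => ?_⟩
  have hn1 : M₁ ≤ n := (le_max_left _ _).trans ((le_max_left _ _).trans hn)
  have hn2 : M₂ ≤ n := (le_max_right _ _).trans ((le_max_left _ _).trans hn)
  have hn3 : k.toNat ≤ n := (le_max_right _ _).trans hn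
  have hkn : k ≤ (n : ℤ) := Int.toNat_le.1 hn3
  obtain ⟨a₁, ha₁⟩ := hM₁ n hn1
  obtain ⟨a₂, ha₂⟩ := hM₂ n hn2
  have hqR : (0 : ℝ) < (q : ℝ) := by exact_mod_cast hq
  obtain ⟨a₃, ha₃⟩ := exists_nat_ge ((s : ℝ) / (q : ℝ))
  refine ⟨max (max a₁ a₂) (max a₃ (n + 1)), fun n' hn' => ?_⟩
  have hn'1 : a₁ ≤ n' := (le_max_left _ _).trans ((le_max_left _ _).trans hn')
  have hn'2 : a₂ ≤ n' := (le_max_right _ _).trans ((le_max_left _ _).trans hn')
  have hn'3 : a₃ ≤ n' := (le_max_left _ _).trans ((le_max_right _ _).trans hn')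
  have hn'4 : n + 1 ≤ n' := (le_max_right _ _).trans ((le_max_right _ _).trans hn')
  have hnn' : (n : ℤ) < (n' : ℤ) := by omega
  have hsn' : (s : ℝ) ≤ (n' : ℝ) * (q : ℝ) := by
    rw [div_le_iff₀ hqR] at ha₃
    refine ha₃.trans ?_
    have h1 : (a₃ : ℝ) ≤ (n' : ℝ) := by exact_mod_cast hn'3
    exact mul_le_mul_of_nonneg_right h1 hqR.le
  have e1 := ha₁ n' hn'1
  have e2 := ha₂ n' hn'2
  have hsub : {x | ¬ ∃ v : ℝ, n * q₁ ≤ v ∧ v ≤ n * q₂ ∧ k ≤ n ∧ s ≤ v ∧ v ≤ n' * q ∧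
      L (B x) k s n' (n' * q) = L (B x) k s n v + L (B x) n v n' (n' * q)} ⊆
      {x | ∃ u : ℝ, s ≤ u ∧ u ≤ n * q₁ ∧
        L (B x) k s n' (n' * q) ≤ L (B x) k s n u + L (B x) n u n' (n' * q)} ∪
      {x | ∃ u : ℝ, n * q₂ ≤ u ∧ u ≤ n' * q ∧
        L (B x) k s n' (n' * q) ≤ L (B x) k s n u + L (B x) n u n' (n' * q)} := by
    intro x hx
    by_contra hcon
    apply hx
    obtain ⟨u, hu1, hu2, hu3⟩ := (hspl (B x) (hSp.cts x) k n n' s (n' * q) hkn hnn' hsn').2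
    have h1 := (hlev (B x) (hSp.cts x) n (n + 1) n' u (n' * q) (by omega) (by omega) hu2).1
    have h2 : L (B x) k s n' (n' * q) ≤ L (B x) k s n u + L (B x) n u n' (n' * q) := by
      rw [hu3]
      linarith
    have h3 := hspk (B x) (hSp.cts x) k n n' s u (n' * q) hkn hnn'.le hu1 hu2
    refine ⟨u, ?_, ?_, hkn, hu1, hu2, le_antisymm h2 h3⟩
    · by_contra h4
      exact hcon (Or.inl ⟨u, hu1, (not_le.1 h4).le, h2⟩)
    · by_contra h4
      exact hcon (Or.inr ⟨u, (not_le.1 h4).le, hu2, h2⟩)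
  refine (measure_mono hsub).trans ((measure_union_le _ _).trans ?_)
  refine (add_le_add e1 e2).trans ?_
  rw [← ENNReal.ofReal_add hδ2.le hδ2.le, add_halves]

end Pool.Agent.BLP.H24
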