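import Pool.Agent.BLP.StmtsF

/-!
# Row F_FAS of the squad BLP: existence of the Busemann functions (assembly of block F)
-/

set_option autoImplicit false

namespace Pool.Agent.BLP.H24

open Pool.Agent.BLP
open MeasureTheory ProbabilityTheory Filter Topology

/-- difference of two sequences converging in measure -/
theorem tim_sub {X : Type} [MeasurableSpace X] {μ : Measure X} {f f' : ℕ → X → ℝ} {g g' : X → ℝ}
    (h : TendstoInMeasure μ f atTop g) (h' : TendstoInMeasure μ f' atTop g') :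
    TendstoInMeasure μ (fun n x => f n x - f' n x) atTop (fun x => g x - g' x) := by
  rw [tendstoInMeasure_iff_dist] at h h' ⊢
  intro ε hε
  have h1 := (h (ε / 2) (half_pos hε)).add (h' (ε / 2) (half_pos hε))
  rw [add_zero] at h1
  refine tendsto_of_tendsto_of_tendsto_of_le_of_le tendsto_const_nhds h1 (fun n => bot_le)
    (fun n => ?_)
  refine (measure_mono ?_).trans (measure_union_le _ _)
  intro x hx
  have hx' : ε ≤ dist (f n x - f' n x) (g x - g' x) := hx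
  by_contra hcon
  have h2 : ¬ (ε / 2 ≤ dist (f n x) (g x)) := fun h3 => hcon (Or.inl h3)
  have h4 : ¬ (ε / 2 ≤ dist (f' n x) (g' x)) := fun h3 => hcon (Or.inr h3)
  rw [not_le] at h2 h4
  have h5 := dist_sub_sub_le (f n x) (f' n x) (g x) (g' x)
  linarith

/-- **F_FAS**. -/
theorem f_fas : FasStmt := by
  classical
  intro hinc hmea hmod hspk hqua hpab hone hexi hpnt hfat hfsa hfmo hfie hfex hfbe hfga hfca hfcp
    hfph hfdi hfmd hfim X _ μ B c hSp hMV hLV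
  have hC := hfca hspk hqua hfsa hfga X μ B c hSp hMV hLV
  obtain ⟨Φ, hΦ⟩ := hfph hmea hfcp X μ B hSp hC
  obtain ⟨φ, hφ, hae⟩ := hfdi X μ ({q : ℚ // 0 < q} × ℤ × ℚ)
    (fun i n x => L (B x) 0 0 n (n * (i.1.1 : ℚ)) - L (B x) i.2.1 i.2.2 n (n * (i.1.1 : ℚ)))
    (fun i => Φ i.1.1 i.2.1 i.2.2) (fun i => (hΦ i.1.1 i.1.2 i.2.1 i.2.2).2)
  have hae' : ∀ᵐ x ∂μ, ∀ q : ℚ, 0 < q → ∀ (m : ℤ) (t : ℚ), Tendsto (fun j : ℕ =>
      L (B x) 0 0 (φ j) (φ j * q) - L (B x) m t (φ j) (φ j * q)) atTop (𝓝 (Φ q m t x)) := by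
    filter_upwards [hae] with x hx q hq m t
    exact hx (⟨q, hq⟩, m, t)
  have hR : ∀ᵐ x ∂μ, RatI (B x) (fun q m t => Φ q m t x) := by
    filter_upwards [hae'] with x hx
    exact hfie hinc hqua (B x) (fun q m t => Φ q m t x) φ (hSp.cts x) hφ hx
  have hM := hfmd hpab hone hexi hspk hpnt hqua hfmo hfat X μ B Φ φ hSp hLV hφ hae'
  have hex : ∀ x, ∃ β : ℚ → ℤ × ℝ → ℤ × ℝ → ℝ,
      (RatI (B x) (fun q m t => Φ q m t x) ∧ RatM (B x) (fun q m t => Φ q m t x)) →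
      (Con β ∧ Mon (B x) β ∧ ∀ q : ℚ, 0 < q → ∀ (m n : ℤ) (s t : ℚ),
        β q (m, s) (n, t) = Φ q n t x - Φ q m s x) := by
    intro x
    by_cases h : RatI (B x) (fun q m t => Φ q m t x) ∧ RatM (B x) (fun q m t => Φ q m t x)
    · obtain ⟨β, h1, h2, h3⟩ := hfbe hfex hmod (B x) _ (hSp.cts x) h.1 h.2
      exact ⟨β, fun _ => ⟨h1, h2, h3⟩⟩
    · exact ⟨fun _ _ _ => 0, fun h' => absurd h' h⟩
  choose β hβ using hex
  have hgood : ∀ᵐ x ∂μ, Con (β x) ∧ Mon (B x) (β x) ∧ ∀ q : ℚ, 0 < q →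
      ∀ (m n : ℤ) (s t : ℚ), β x q (m, s) (n, t) = Φ q n t x - Φ q m s x := by
    filter_upwards [hR, hM] with x h1 h2
    exact hβ x ⟨h1, h2⟩
  have hCM : ∀ᵐ x ∂μ, Con (fun q y z => β x q y z) ∧ Mon (B x) (fun q y z => β x q y z) := by
    filter_upwards [hgood] with x hx
    exact ⟨hx.1, hx.2.1⟩
  refine ⟨fun q y z x => β x q y z, ?_, hCM⟩
  refine hfim hinc hmea X μ B (fun q y z x => β x q y z) hSp hCM ?_
  intro q hq m m' s t
  have h1 := (hΦ q hq m' t).2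
  have h2 := (hΦ q hq m s).2
  have h3 := tim_sub h1 h2
  refine TendstoInMeasure.congr (fun n => ?_) ?_ h3
  · refine Eventually.of_forall (fun x => ?_)
    change (L (B x) 0 0 n (n * q) - L (B x) m' t n (n * q)) -
      (L (B x) 0 0 n (n * q) - L (B x) m s n (n * q)) =
      L (B x) m s n (n * q) - L (B x) m' t n (n * q)
    ring
  · filter_upwards [hgood] with x hx
    exact (hx.2.2 q hq m m' s t).symm

end Pool.Agent.BLP.H24
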